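import Pool.Agent.K3h5.IB.Stm
import Pool.Agent.Y560.BE.Erg
import Pool.Agent.R243.Erg.Max

/-!
# Project IB (helper5), brick EB: the ergodic theorem for the shift of two-sided iid sequences
-/

set_option autoImplicit false

open MeasureTheory Filter Topology

namespace Pool.Agent.K3h33.IB

open Pool.Agent.K3h5.IB

/-- the shift of the integers -/
abbrev σ₁ : ℤ ≃ ℤ := Equiv.addRight (1 : ℤ)

lemma σ₁_iter (n : ℕ) (i : ℤ) : σ₁^[n] i = i + n := by
  induction n with
  | zero => simp
  | succ n ih =>
    rw [Function.iterate_succ_apply', ih, Equiv.coe_addRight]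
    push_cast
    ring

theorem t_EB : S_EB := by
  intro Z _ ν _ f hf hi
  have herg : Ergodic (Pool.Agent.Y560.BE.cm (Z := Z) σ₁) (Measure.infinitePi fun _ : ℤ => ν) := by
    classical
    refine Pool.Agent.Y560.BE.erg_cm ν σ₁ (Pool.Agent.Y560.BE.move_off _ fun i n h => ?_)
    rw [σ₁_iter] at h
    push_cast at h
    omega
  set R := Pool.Agent.Y560.BE.cm (Z := Z) σ₁ with hR
  set μ := Measure.infinitePi fun _ : ℤ => ν with hμ
  have hbir := Pool.Agent.R243.Erg.birkhoff_L1 herg.toMeasurePreserving hf hi
  set g := μ[f | MeasurableSpace.invariants R] with hg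
  have hgm : Measurable[MeasurableSpace.invariants R] g :=
    stronglyMeasurable_condExp.measurable
  have hgm' : Measurable g := hgm.mono (MeasurableSpace.invariants_le _) le_rfl
  have hcomp : g ∘ R = g := MeasurableSpace.comp_eq_of_measurable_invariants hgm
  obtain ⟨c, hc⟩ := herg.toPreErgodic.ae_eq_const_of_ae_eq_comp hgm' hcomp
  have hcval : c = ∫ z, f z ∂μ := by
    rw [← integral_condExp (MeasurableSpace.invariants_le R) (f := f) (μ := μ),
      integral_congr_ae hc]
    simp
  filter_upwards [hbir, hc] with w h4 h5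
  rw [h5, Function.const_apply, hcval] at h4
  refine h4.congr fun n => ?_
  unfold Pool.Agent.R243.Erg.av
  rw [div_eq_inv_mul]
  congr 1
  refine Finset.sum_congr rfl fun k _ => ?_
  rw [hR, Pool.Agent.Y560.BE.cm_iter]
  congr 1
  funext i
  rw [σ₁_iter]

end Pool.Agent.K3h33.IB
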