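import Pool.Agent.K3h5.IB.Stm

/-!
# Project IB (helper5), brick POS: the time `0` is a cut time with positive probability
-/

set_option autoImplicit false

open MeasureTheory Filter Topology

namespace Pool.Agent.K3h33.IB

open Pool.Agent.K3h5.IB

lemma last_min (h : ℕ → ℝ) (H : ∃ N, ∀ n ≥ N, h 0 < h n) : ∃ n, ∀ j > n, h n < h j := by
  by_contra hcon
  push Not at hcon
  have key : ∀ N, ∃ n ≥ N, h n ≤ h 0 := by
    intro N
    induction N with
    | zero => exact ⟨0, le_rfl, le_rfl⟩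
    | succ N ih =>
      obtain ⟨n, hn, h1⟩ := ih
      obtain ⟨j, hj, h2⟩ := hcon n
      exact ⟨j, by omega, h2.trans h1⟩
  obtain ⟨N, hN⟩ := H
  obtain ⟨n, hn, h1⟩ := key N
  exact absurd (hN n hn) (not_lt.2 h1)

lemma path0_sh {d : ℕ} (x : ℕ → S d) (n k : ℕ) :
    path0 (sh n x) k = path0 x (n + k) - path0 x n := by
  unfold path0 sh
  rw [Finset.sum_range_add, add_sub_cancel_left]
  exact Finset.sum_congr rfl fun i _ => by rw [add_comm]

lemma ht_sub {d : ℕ} (δ : Fin d → ℝ) (v w : V d) : ht δ (v - w) = ht δ v - ht δ w := by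
  unfold ht
  rw [← Finset.sum_sub_distrib]
  exact Finset.sum_congr rfl fun j _ => by rw [Pi.sub_apply]; push_cast; ring

lemma mp_shift {d : ℕ} (ν : Measure (S d)) [IsProbabilityMeasure ν] (n : ℕ) :
    MeasurePreserving (sh (d := d) n) (Measure.infinitePi fun _ : ℕ => ν)
      (Measure.infinitePi fun _ : ℕ => ν) := by
  refine ⟨measurable_pi_lambda _ fun i => measurable_pi_apply _, ?_⟩
  exact Measure.map_infinitePi_infinitePi_of_inj (P := fun _ : ℕ => ν) (f := fun k : ℕ => k + n)
    (fun a b h => Nat.add_right_cancel h)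

theorem t_POS : S_PROB → S_LLN → S_POS := by
  intro hP hL d p q hpq
  obtain ⟨-, hnu, hPP, -⟩ := hP d p q hpq
  set δ := drift (p 0) with hδ
  have hne : (PP p q) {x | Cut δ x 0} ≠ 0 := by
    intro h0
    have h1 : ∀ n : ℕ, ∀ᵐ x ∂(PP p q), ¬ Cut δ (sh n x) 0 := by
      intro n
      have h2 := (mp_shift (nu p q) n).quasiMeasurePreserving.preimage_null
        (s := {x | Cut δ x 0}) h0
      have h3 : {x : ℕ → S d | ¬ ¬ Cut δ (sh n x) 0} = sh n ⁻¹' {x | Cut δ x 0} := by
        ext x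
        simp only [not_not, Set.mem_preimage, Set.mem_ofPred_eq]
      rw [ae_iff, h3]
      exact h2
    have h2 := ae_all_iff.2 h1
    obtain ⟨x, h3, -, -, h4⟩ := (h2.and (hL d p q hpq)).exists
    obtain ⟨n, hn⟩ := last_min (fun n => ht δ (path0 x n)) (h4 (ht δ (path0 x 0)))
    apply h3 n
    have e0 : path0 (sh n x) 0 = 0 := by
      rw [path0, Finset.sum_range_zero]
    refine ⟨fun j hj => by rw [Nat.le_zero.1 hj], fun j hj => ?_⟩
    rw [path0_sh, path0_sh, ht_sub, ht_sub, add_zero]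
    have := hn (n + j) (by omega)
    linarith
  exact ENNReal.toReal_pos hne (measure_ne_top _ _)

end Pool.Agent.K3h33.IB
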